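import Pool.Agent.Q211.SL.Main

/-!
# MP_09a4e8_an: consistently `([0,1], 𝒜_{H^d}, H^d)` is not semilocalizable

If `non(N) < cov(N)` (this holds in the random model), then for every `0 < d < 1` the measure
space `([0,1], 𝒜_{H^d}, H^d)` is not semilocalizable.

All notions are those of the problem file:
`Q211.HF.H (pg d) A` is `H^d(A)`, `Q211.SL.Meas d` Caratheodory measurability on `[0,1]`,
`Q211.SL.LocNull d` the locally null sets, `Q211.SL.Localizable` order completeness of the
quotient Boolean algebra.
-/

namespace Pool.Agent.Results.MP_09a4e8_an.NotSemilocalizable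

open Q211.SL

/-- If `non(N) < cov(N)`, then `([0,1], 𝒜_{H^d}, H^d)` is not semilocalizable for every
`0 < d < 1`. -/
theorem result (h : nonN < covN) : ∀ d : ℝ, 0 < d → d < 1 → ¬ Semilocalizable d :=
  fun _ h0 h1 => not_semilocalizable h h0 h1

end Pool.Agent.Results.MP_09a4e8_an.NotSemilocalizable
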